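import Pool.Agent.X249.MSy.Sound

/-!
# A satisfying assignment gives a symmetric arrangement
-/

set_option autoImplicit false

namespace Pool.Agent.X249.MSy

open Pool.Agent.NPC Pool.Agent.NPC.H634R2

def flip1 (e : ℕ) : ℕ := if e = 0 then 1 else if e = 1 then 0 else if e = 2 then 3 else 2

def flip2 (e : ℕ) : ℕ := if e = 0 then 2 else if e = 1 then 3 else if e = 2 then 0 else 1

def swap13 (e : ℕ) : ℕ := if e = 1 then 3 else if e = 3 then 1 else e

def flip3 (e : ℕ) : ℕ := if e = 0 then 3 else if e = 1 then 2 else if e = 2 then 1 else 0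

def f1 (x e : ℕ) : ℕ := if x = 0 then flip2 e else if x = 1 then flip1 e else e

def f2 (b : Bool) (y e : ℕ) : ℕ := if b = true then flip1 e else if y = 1 then swap13 e else e

def f3 (b : Bool) (y e : ℕ) : ℕ := if b = true then swap13 e else if y = 1 then flip3 e else e

theorem L22 : ∀ b : Bool, ∀ y < 2, ∀ e < 4, ∀ e' < 4, (e = f2 b y e' ↔ e' = f2 b y e) := by
  decide

theorem L23 : ∀ b : Bool, ∀ y < 2, (b = true → y = 0) → ∀ e < 4, ∀ e' < 4,
    (Inc e (f3 b y e') ↔ Inc (f2 b y e) e') := by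
  decide

theorem L12 : ∀ x < 3, ∀ i < 3, ∀ y < 2, ∀ e < 4, ∀ e' < 4,
    (par (f2 (decide (x = i)) y e') = ev e i ↔ par e' = od (f1 x e) i) := by
  intro x hx i hi y hy
  interval_cases x <;> interval_cases i <;> interval_cases y <;> decide

theorem L30 : ∀ b : Bool, ∀ a < 2, ∀ s < 2, (b = true → xr a s = 0) → ∀ e < 4, ∀ e' < 2,
    (par e = xr e' a ↔ par (f3 b (xr a s) e) = xr e' s) := by
  intro b a ha s hs
  interval_cases a <;> interval_cases s <;> revert b <;> decide

theorem f1_lt : ∀ x e : ℕ, e < 4 → f1 x e < 4 := by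
  intro x e he
  unfold f1 flip1 flip2
  split_ifs <;> omega

theorem f2_lt : ∀ (b : Bool) (y e : ℕ), e < 4 → f2 b y e < 4 := by
  intro b y e he
  unfold f2 flip1 swap13
  split_ifs <;> omega

theorem f3_lt : ∀ (b : Bool) (y e : ℕ), e < 4 → f3 b y e < 4 := by
  intro b y e he
  unfold f3 swap13 flip3
  split_ifs <;> omega

theorem f1_inv : ∀ x e : ℕ, e < 4 → f1 x (f1 x e) = e := by
  intro x e he
  rcases (by omega : x = 0 ∨ x = 1 ∨ (x ≠ 0 ∧ x ≠ 1)) with rfl | rfl | ⟨h0, h1⟩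
  · interval_cases e <;> rfl
  · interval_cases e <;> rfl
  · unfold f1; simp [h0, h1]

theorem f2_inv : ∀ (b : Bool) (y e : ℕ), e < 4 → f2 b y (f2 b y e) = e := by
  intro b y e he
  by_cases hy : y = 1
  · subst hy
    cases b <;> interval_cases e <;> rfl
  · cases b
    · unfold f2; simp [hy]
    · interval_cases e <;> rfl

theorem f3_inv : ∀ (b : Bool) (y e : ℕ), e < 4 → f3 b y (f3 b y e) = e := by
  intro b y e he
  by_cases hy : y = 1
  · subst hy
    cases b <;> interval_cases e <;> rfl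
  · cases b
    · unfold f3; simp [hy]
    · interval_cases e <;> rfl

section

variable (φ : Cnf) (τ : ℕ → Bool) (xc : ℕ → ℕ)

def av (v : ℕ) : ℕ := if τ v = true then 1 else 0

/-- the new number of the member `e` of the class `K` -/
def pf (K : Key) (e : ℕ) : ℕ :=
  if K.1 = 0 then xr e (av τ K.2.2.2.1)
  else if K.1 = 1 then f1 (xc K.2.1) e
  else if K.1 = 2 then
    f2 (decide (xc K.2.1 = K.2.2.1)) (xr (av τ K.2.2.2.1) K.2.2.2.2) e
  else f3 (decide (xc K.2.1 = K.2.2.1)) (xr (av τ K.2.2.2.1) K.2.2.2.2) e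

def pp (x : Code) : Code := if x.1 = 0 then x else (x.1, x.2.1, pf τ xc x.2.1 x.2.2)

theorem av_lt (v : ℕ) : av τ v < 2 := by unfold av; split_ifs <;> omega

theorem xr_lt (a b : ℕ) : xr a b < 2 := by unfold xr; split_ifs <;> omega

theorem xr_inv : ∀ a < 2, ∀ e < 2, xr (xr e a) a = e := by decide

theorem pf_spec {K : Key} {e : ℕ} (he : Itm K e) (he4 : e < 4) :
    Itm K (pf τ xc K e) ∧ pf τ xc K e < 4 ∧ pf τ xc K (pf τ xc K e) = e := by
  unfold pf
  by_cases h0 : K.1 = 0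
  · simp only [h0, if_true]
    have h2 : e < 2 := by
      rcases he with h | h
      · exact absurd h0 h
      · exact h
    have := xr_lt e (av τ K.2.2.2.1)
    exact ⟨Or.inr this, by omega, xr_inv _ (av_lt τ _) _ h2⟩
  · simp only [h0, if_false]
    by_cases h1 : K.1 = 1
    · simp only [h1, if_true]
      exact ⟨Or.inl h0, f1_lt _ _ he4, f1_inv _ _ he4⟩
    · simp only [h1, if_false]
      by_cases h2 : K.1 = 2
      · simp only [h2, if_true]
        exact ⟨Or.inl h0, f2_lt _ _ _ he4, f2_inv _ _ _ he4⟩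
      · simp only [h2, if_false]
        exact ⟨Or.inl h0, f3_lt _ _ _ he4, f3_inv _ _ _ he4⟩

theorem pp_core {x : Code} (hx : x ∈ core φ) : pp τ xc x ∈ core φ ∧ pp τ xc (pp τ xc x) = x := by
  obtain ⟨n, h1, h2, h3, h4⟩ := mem_core.1 hx
  obtain ⟨g1, g2, g3⟩ := pf_spec τ xc h3 h4
  have h0 : x.1 ≠ 0 := by omega
  have e : pp τ xc x = (x.1, x.2.1, pf τ xc x.2.1 x.2.2) := by unfold pp; rw [if_neg h0]
  rw [e]
  refine ⟨mem_core.2 ⟨n, h1, h2, g1, g2⟩, ?_⟩
  unfold pp
  simp only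
  rw [if_neg h0, g3]

theorem pp_pads {x : Code} (hx : x ∈ pads φ) : pp τ xc x = x := by
  obtain ⟨a, -, rfl⟩ := mem_pads.1 hx
  rfl

theorem pp_perm : ((els φ).map (pp τ xc)).Perm (els φ) := by
  have hinv : ∀ x ∈ els φ, pp τ xc x ∈ els φ ∧ pp τ xc (pp τ xc x) = x := by
    intro x hx
    rcases List.mem_append.1 hx with h | h
    · exact ⟨List.mem_append_left _ (pp_core φ τ xc h).1, (pp_core φ τ xc h).2⟩
    · rw [pp_pads φ τ xc h, pp_pads φ τ xc h]
      exact ⟨hx, rfl⟩
  have hinj : ∀ x ∈ els φ, ∀ y ∈ els φ, pp τ xc x = pp τ xc y → x = y := by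
    intro x hx y hy hxy
    rw [← (hinv x hx).2, ← (hinv y hy).2, hxy]
  have hnd : ((els φ).map (pp τ xc)).Nodup := (List.nodup_map_iff_inj_on (els_nodup φ)).2 hinj
  have hsub : (els φ).map (pp τ xc) ⊆ els φ := by
    intro z hz
    obtain ⟨x, hx, rfl⟩ := List.mem_map.1 hz
    exact (hinv x hx).1
  exact (hnd.subperm hsub).perm_of_length_le (by rw [List.length_map])

/-- what is known about the classes -/
def Good (K : Key) : Prop :=
  K.1 = 0 ∨ (K.1 = 1) ∨ ((K.1 = 2 ∨ K.1 = 3) ∧ xc K.2.1 < 3 ∧ K.2.2.1 < 3 ∧ K.2.2.2.2 < 2 ∧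
    (xc K.2.1 = K.2.2.1 → xr (av τ K.2.2.2.1) K.2.2.2.2 = 0))

theorem cadj_aux {k k' j j' i i' v v' s s' e e' : ℕ} (hK : Good τ xc (k, j, i, v, s))
    (hK' : Good τ xc (k', j', i', v', s')) (he : Itm (k, j, i, v, s) e) (he4 : e < 4)
    (he' : Itm (k', j', i', v', s') e') (he4' : e' < 4) :
    CAdj ((k, j, i, v, s), e) ((k', j', i', v', s'), pf τ xc (k', j', i', v', s') e') →
    CAdj ((k', j', i', v', s'), e') ((k, j, i, v, s), pf τ xc (k, j, i, v, s) e) := by
  intro h
  unfold CAdj at h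
  simp only at h
  rcases h with ⟨rfl, h, h1⟩ | ⟨rfl, rfl, h, h1⟩ | ⟨rfl, rfl, h, h1⟩ | ⟨rfl, rfl, h, h1⟩ |
    ⟨rfl, rfl, h, h1⟩ | ⟨rfl, rfl, h, h1⟩ | ⟨rfl, rfl, h, h1⟩
  · simp only [Prod.mk.injEq] at h
    obtain ⟨rfl, rfl, rfl, rfl, rfl⟩ := h
    left
    refine ⟨rfl, rfl, ?_⟩
    have := L22 (decide (xc j' = i')) _ (xr_lt (av τ v') s') e he4 e' he4'
    simp only [pf] at h1 ⊢
    norm_num at h1 ⊢
    exact this.1 h1
  · simp only [Prod.mk.injEq] at h
    obtain ⟨rfl, rfl, rfl, rfl⟩ := h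
    right; right; left
    refine ⟨rfl, rfl, rfl, ?_⟩
    rcases hK with h | h | ⟨-, a1, a2, a3, a4⟩
    · simp at h
    · simp at h
    have := L23 (decide (xc j' = i')) _ (xr_lt (av τ v') s') (by simpa using a4) e he4 e' he4'
    simp only [pf] at h1 ⊢
    norm_num at h1 ⊢
    exact this.1 h1
  · simp only [Prod.mk.injEq] at h
    obtain ⟨rfl, rfl, rfl, rfl⟩ := h
    right; left
    refine ⟨rfl, rfl, rfl, ?_⟩
    rcases hK with h | h | ⟨-, a1, a2, a3, a4⟩
    · simp at h
    · simp at h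
    have := L23 (decide (xc j' = i')) _ (xr_lt (av τ v') s') (by simpa using a4) e' he4' e he4
    simp only [pf] at h1 ⊢
    norm_num at h1 ⊢
    exact this.2 h1
  · subst h
    right; right; right; right; left
    refine ⟨rfl, rfl, rfl, ?_⟩
    rcases hK' with h | h | ⟨-, a1, a2, a3, a4⟩
    · simp at h
    · simp at h
    have := L12 (xc j') a1 i' a2 _ (xr_lt (av τ v') s') e he4 e' he4'
    simp only [pf] at h1 ⊢
    norm_num at h1 ⊢
    exact this.1 h1
  · subst h
    right; right; right; left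
    refine ⟨rfl, rfl, rfl, ?_⟩
    rcases hK with h | h | ⟨-, a1, a2, a3, a4⟩
    · simp at h
    · simp at h
    have := L12 (xc j') a1 i a2 _ (xr_lt (av τ v) s) e' he4' e he4
    simp only [pf] at h1 ⊢
    norm_num at h1 ⊢
    exact this.2 h1
  · subst h
    right; right; right; right; right; right
    refine ⟨rfl, rfl, rfl, ?_⟩
    rcases hK with h | h | ⟨-, a1, a2, a3, a4⟩
    · simp at h
    · simp at h
    have he2 : e' < 2 := by
      rcases he' with h | h
      · simp at h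
      · exact h
    have := L30 (decide (xc j = i)) _ (av_lt τ v') s a3 (by simpa using a4) e he4 e' he2
    simp only [pf] at h1 ⊢
    norm_num at h1 ⊢
    exact this.1 h1
  · subst h
    right; right; right; right; right; left
    refine ⟨rfl, rfl, rfl, ?_⟩
    rcases hK' with h | h | ⟨-, a1, a2, a3, a4⟩
    · simp at h
    · simp at h
    have he2 : e < 2 := by
      rcases he with h | h
      · simp at h
      · exact h
    have := L30 (decide (xc j' = i')) _ (av_lt τ v') s' a3 (by simpa using a4) e' he4' e he2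
    simp only [pf] at h1 ⊢
    norm_num at h1 ⊢
    exact this.2 h1

end

theorem sol_of_sat {φ : Cnf} (h : SAT3 φ) : ∃ p, Sol φ p := by
  classical
  obtain ⟨τ, hτ⟩ := h
  have hx : ∀ j : ℕ, ∃ x : ℕ, x < 3 ∧ ∀ c : Lit ℕ × Lit ℕ × Lit ℕ, φ[j]? = some c →
      (x = 0 → τ c.1.2 = c.1.1) ∧ (x = 1 → τ c.2.1.2 = c.2.1.1) ∧
        (x = 2 → τ c.2.2.2 = c.2.2.1) := by
    intro j
    rcases hj : φ[j]? with _ | c
    · exact ⟨0, by omega, fun c hc => by simp at hc⟩
    · obtain ⟨h2, h3⟩ := List.getElem?_eq_some_iff.1 hj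
      have h4 : c ∈ φ := h3 ▸ List.getElem_mem h2
      rcases hτ c h4 with h5 | h5 | h5
      · refine ⟨0, by omega, ?_⟩
        rintro c' hc'
        simp only [Option.some.injEq] at hc'
        subst hc'
        exact ⟨fun _ => h5, fun h => by omega, fun h => by omega⟩
      · refine ⟨1, by omega, ?_⟩
        rintro c' hc'
        simp only [Option.some.injEq] at hc'
        subst hc'
        exact ⟨fun h => by omega, fun _ => h5, fun h => by omega⟩
      · refine ⟨2, by omega, ?_⟩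
        rintro c' hc'
        simp only [Option.some.injEq] at hc'
        subst hc'
        exact ⟨fun h => by omega, fun h => by omega, fun _ => h5⟩
  choose xc hxc1 hxc2 using hx
  have hlit : ∀ l : Lit ℕ, τ l.2 = l.1 → xr (av τ l.2) (sg l) = 0 := by
    rintro ⟨b, v⟩ hl
    simp only at hl
    unfold xr av sg
    simp [hl]
  have hsg : ∀ l : Lit ℕ, sg l < 2 := by intro l; unfold sg; split_ifs <;> omega
  have hgood : ∀ K ∈ keys φ, Good τ xc K := by
    intro K hK
    rcases mem_keys.1 hK with ⟨v, -, rfl⟩ | ⟨c, j, hc, hK⟩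
    · exact Or.inl rfl
    · obtain ⟨g0, g1, g2⟩ := hxc2 j c hc
      simp only [ckeys, List.mem_cons, List.not_mem_nil, or_false] at hK
      rcases hK with rfl | rfl | rfl | rfl | rfl | rfl | rfl
      · exact Or.inr (Or.inl rfl)
      · exact Or.inr (Or.inr ⟨Or.inl rfl, hxc1 j, by norm_num, hsg _, fun h => hlit _ (g0 h)⟩)
      · exact Or.inr (Or.inr ⟨Or.inl rfl, hxc1 j, by norm_num, hsg _, fun h => hlit _ (g1 h)⟩)
      · exact Or.inr (Or.inr ⟨Or.inl rfl, hxc1 j, by norm_num, hsg _, fun h => hlit _ (g2 h)⟩)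
      · exact Or.inr (Or.inr ⟨Or.inr rfl, hxc1 j, by norm_num, hsg _, fun h => hlit _ (g0 h)⟩)
      · exact Or.inr (Or.inr ⟨Or.inr rfl, hxc1 j, by norm_num, hsg _, fun h => hlit _ (g1 h)⟩)
      · exact Or.inr (Or.inr ⟨Or.inr rfl, hxc1 j, by norm_num, hsg _, fun h => hlit _ (g2 h)⟩)
  refine ⟨pp τ xc, pp_perm φ τ xc, ?_⟩
  have key : ∀ x ∈ els φ, ∀ y ∈ els φ, Ad (bb φ) x (pp τ xc y) → Ad (bb φ) y (pp τ xc x) := by
    intro x hx y hy hxy
    rcases List.mem_append.1 hx with h | h <;> rcases List.mem_append.1 hy with h' | h'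
    · obtain ⟨m1, -, m3, m4⟩ := core_cd h
      obtain ⟨m1', -, m3', m4'⟩ := core_cd h'
      obtain ⟨n, n1, -⟩ := mem_core.1 h
      obtain ⟨n', n1', -⟩ := mem_core.1 h'
      have z : x.1 ≠ 0 := by omega
      have z' : y.1 ≠ 0 := by omega
      simp only [Ad, pp, z, z', if_false, false_and, false_or, ne_eq, not_false_eq_true,
        true_and] at hxy ⊢
      obtain ⟨m, ⟨k, j, i, v, s⟩, e⟩ := x
      obtain ⟨m', ⟨k', j', i', v', s'⟩, e'⟩ := y
      exact cadj_aux τ xc (hgood _ m1) (hgood _ m1') m3 m4 m3' m4' hxy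
    · rw [pp_pads φ τ xc h'] at hxy
      obtain ⟨n, n1, -⟩ := mem_core.1 h
      obtain ⟨a, -, rfl⟩ := mem_pads.1 h'
      have z : x.1 ≠ 0 := by omega
      simp only [Ad, pp, z, if_false, false_and, false_or, ne_eq, not_false_eq_true, true_and,
        not_true_eq_false, and_false, or_false] at hxy ⊢
      exact hxy
    · rw [pp_pads φ τ xc h]
      obtain ⟨n, n1, -⟩ := mem_core.1 h'
      obtain ⟨a, -, rfl⟩ := mem_pads.1 h
      have z : y.1 ≠ 0 := by omega
      simp only [Ad, pp, z, if_false, false_and, false_or, ne_eq, not_false_eq_true, true_and,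
        not_true_eq_false, and_false, or_false] at hxy ⊢
      exact hxy
    · rw [pp_pads φ τ xc h]
      obtain ⟨a, -, rfl⟩ := mem_pads.1 h
      obtain ⟨b, -, rfl⟩ := mem_pads.1 h'
      exact Or.inl ⟨rfl, rfl⟩
  exact fun x hx y hy => ⟨key x hx y hy, key y hy x hx⟩

end Pool.Agent.X249.MSy
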