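import Pool.Agent.X249.MSy.Defs

/-!
# The matrix of a 3-CNF
-/

set_option autoImplicit false

namespace Pool.Agent.X249.MSy

open Pool.Agent.NPC Pool.Agent.NPC.H634R2

abbrev Cnf : Type := List (Lit ℕ × Lit ℕ × Lit ℕ)

/-- A class of rows and columns: `(kind, clause, position, variable, sign)`. -/
abbrev Key : Type := ℕ × ℕ × ℕ × ℕ × ℕ

/-- A row or column: the number of its class, its class, its number in the class. -/
abbrev Code : Type := ℕ × Key × ℕ

def par (e : ℕ) : ℕ := if e = 1 ∨ e = 3 then 1 else 0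

def hi (e : ℕ) : ℕ := if e = 2 ∨ e = 3 then 1 else 0

def xr (a b : ℕ) : ℕ := if a = b then 0 else 1

def ev (e i : ℕ) : ℕ := if i = 0 then hi e else if i = 1 then par e else xr (hi e) (par e)

def od (e i : ℕ) : ℕ :=
  if i = 0 then hi e else if i = 1 then par e else (if hi e = par e then 1 else 0)

/-- The point `q` of the square is on the edge `e`. -/
def Inc (q e : ℕ) : Prop :=
  q = e ∨ (q = 1 ∧ e = 0) ∨ (q = 2 ∧ e = 1) ∨ (q = 3 ∧ e = 2) ∨ (q = 0 ∧ e = 3)

instance (q e : ℕ) : Decidable (Inc q e) := by unfold Inc; infer_instance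

/-- The entries of the matrix outside the padding. -/
def CAdj (x y : Key × ℕ) : Prop :=
  (x.1.1 = 2 ∧ y.1 = x.1 ∧ x.2 = y.2) ∨
  (x.1.1 = 2 ∧ y.1.1 = 3 ∧ y.1.2 = x.1.2 ∧ Inc x.2 y.2) ∨
  (x.1.1 = 3 ∧ y.1.1 = 2 ∧ y.1.2 = x.1.2 ∧ Inc y.2 x.2) ∨
  (x.1.1 = 1 ∧ y.1.1 = 2 ∧ y.1.2.1 = x.1.2.1 ∧ par y.2 = ev x.2 y.1.2.2.1) ∨
  (x.1.1 = 2 ∧ y.1.1 = 1 ∧ y.1.2.1 = x.1.2.1 ∧ par x.2 = od y.2 x.1.2.2.1) ∨
  (x.1.1 = 3 ∧ y.1.1 = 0 ∧ y.1.2.2.2.1 = x.1.2.2.2.1 ∧ par x.2 = y.2) ∨
  (x.1.1 = 0 ∧ y.1.1 = 3 ∧ y.1.2.2.2.1 = x.1.2.2.2.1 ∧ par y.2 = xr x.2 y.1.2.2.2.2)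

/-- The entries of the matrix. -/
def Ad (B : ℕ) (x y : Code) : Prop :=
  (x.1 = 0 ∧ y.1 = 0) ∨ (x.1 = 0 ∧ y.1 ≠ 0 ∧ x.2.2 < y.1 * B) ∨
  (x.1 ≠ 0 ∧ y.1 = 0 ∧ y.2.2 < x.1 * B) ∨ (x.1 ≠ 0 ∧ y.1 ≠ 0 ∧ CAdj x.2 y.2)

/-- The sign of a literal. -/
def sg (l : Lit ℕ) : ℕ := if l.1 = true then 1 else 0

/-- The classes of a clause. -/
def ckeys (p : (Lit ℕ × Lit ℕ × Lit ℕ) × ℕ) : List Key :=
  [(1, p.2, 0, 0, 0), (2, p.2, 0, p.1.1.2, sg p.1.1), (2, p.2, 1, p.1.2.1.2, sg p.1.2.1),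
    (2, p.2, 2, p.1.2.2.2, sg p.1.2.2), (3, p.2, 0, p.1.1.2, sg p.1.1),
    (3, p.2, 1, p.1.2.1.2, sg p.1.2.1), (3, p.2, 2, p.1.2.2.2, sg p.1.2.2)]

/-- The classes. -/
noncomputable def keys (φ : Cnf) : List Key :=
  ((vars3 φ).map (fun v : ℕ => ((0, 0, 0, v, 0) : Key)) ++
    φ.zipIdx.flatMap (fun p : (Lit ℕ × Lit ℕ × Lit ℕ) × ℕ => ckeys p)).dedup

/-- The number of a member of a class is allowed. -/
def Itm (K : Key) (e : ℕ) : Prop := K.1 ≠ 0 ∨ e < 2

instance (K : Key) (e : ℕ) : Decidable (Itm K e) := by unfold Itm; infer_instance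

/-- The rows and columns outside the padding. -/
noncomputable def core (φ : Cnf) : List Code :=
  (((keys φ).zipIdx ×ˢ [0, 1, 2, 3]).filter (fun p : (Key × ℕ) × ℕ => decide (Itm p.1.1 p.2))).map
    (fun p : (Key × ℕ) × ℕ => ((p.1.2 + 1, p.1.1, p.2) : Code))

noncomputable def bb (φ : Cnf) : ℕ := (core φ).length + 1

noncomputable def ll (φ : Cnf) : ℕ := ((keys φ).length + 1) * bb φ

noncomputable def pads (φ : Cnf) : List Code :=
  (List.range (ll φ)).map (fun a => ((0, (4, 0, 0, 0, 0), a) : Code))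

noncomputable def els (φ : Cnf) : List Code := core φ ++ pads φ

theorem mem_core {φ : Cnf} {x : Code} : x ∈ core φ ↔
    ∃ n, x.1 = n + 1 ∧ (keys φ)[n]? = some x.2.1 ∧ Itm x.2.1 x.2.2 ∧ x.2.2 < 4 := by
  unfold core
  rw [List.mem_map]
  constructor
  · rintro ⟨⟨⟨K, n⟩, e⟩, h, rfl⟩
    rw [List.mem_filter, List.mem_product, List.mem_zipIdx_iff_getElem?] at h
    obtain ⟨⟨h1, h2⟩, h3⟩ := h
    refine ⟨n, rfl, h1, by simpa using h3, ?_⟩
    simp only [List.mem_cons, List.not_mem_nil, or_false] at h2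
    show e < 4
    omega
  · rintro ⟨n, h1, h2, h3, h4⟩
    obtain ⟨m, K, e⟩ := x
    refine ⟨((K, n), e), ?_, by simp only at h1; rw [h1]⟩
    rw [List.mem_filter, List.mem_product, List.mem_zipIdx_iff_getElem?]
    refine ⟨⟨h2, ?_⟩, by simpa using h3⟩
    simp only at h4
    simp only [List.mem_cons, List.not_mem_nil, or_false]
    omega

theorem keys_nodup (φ : Cnf) : (keys φ).Nodup := List.nodup_dedup _

theorem core_nodup (φ : Cnf) : (core φ).Nodup := by
  unfold core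
  refine List.Nodup.map ?_ ((List.Nodup.product ?_ (by decide)).filter _)
  · rintro ⟨⟨K, n⟩, e⟩ ⟨⟨K', n'⟩, e'⟩ h
    simp only [Prod.mk.injEq, Nat.add_right_cancel_iff] at h ⊢
    tauto
  · apply List.Nodup.of_map Prod.snd
    rw [List.zipIdx_map_snd]
    exact List.nodup_range' _ (by decide)

theorem mem_pads {φ : Cnf} {x : Code} : x ∈ pads φ ↔
    ∃ a < ll φ, x = (0, (4, 0, 0, 0, 0), a) := by
  unfold pads
  rw [List.mem_map]
  constructor
  · rintro ⟨a, h, rfl⟩
    exact ⟨a, List.mem_range.1 h, rfl⟩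
  · rintro ⟨a, h, rfl⟩
    exact ⟨a, List.mem_range.2 h, rfl⟩

theorem els_nodup (φ : Cnf) : (els φ).Nodup := by
  unfold els
  rw [List.nodup_append]
  refine ⟨core_nodup φ, ?_, ?_⟩
  · unfold pads
    refine List.Nodup.map ?_ List.nodup_range
    intro a b h
    simpa using h
  · rintro x hx y hy rfl
    obtain ⟨n, h1, -⟩ := mem_core.1 hx
    obtain ⟨a, -, h2⟩ := mem_pads.1 hy
    rw [h2] at h1
    simp at h1

theorem countP_range (k : ℕ) : ∀ L : ℕ, (List.range L).countP (fun a => decide (a < k)) = min k L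
  | 0 => by simp
  | L + 1 => by
    rw [List.range_succ, List.countP_append, countP_range k L, List.countP_singleton]
    by_cases h : L < k
    · simp only [h, decide_true, if_true]; omega
    · simp only [h, decide_false, Bool.false_eq_true, if_false]; omega

open Classical in
/-- the degree of a row -/
noncomputable def rdeg (φ : Cnf) (x : Code) : ℕ :=
  (els φ).countP (fun y => decide (Ad (bb φ) x y))

open Classical in
/-- the degree of a column -/
noncomputable def cdeg (φ : Cnf) (y : Code) : ℕ :=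
  (els φ).countP (fun x => decide (Ad (bb φ) x y))

theorem rdeg_core {φ : Cnf} {x : Code} (hx : x ∈ core φ) :
    ∃ r < bb φ, rdeg φ x = x.1 * bb φ + r := by
  classical
  obtain ⟨n, h1, h2, -, -⟩ := mem_core.1 hx
  have h3 : n < (keys φ).length := (List.getElem?_eq_some_iff.1 h2).1
  refine ⟨(core φ).countP (fun y => decide (Ad (bb φ) x y)), ?_, ?_⟩
  · have := List.countP_le_length (p := fun y => decide (Ad (bb φ) x y)) (l := core φ)
    unfold bb at *
    omega
  · unfold rdeg els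
    rw [List.countP_append, add_comm]
    congr 1
    unfold pads
    rw [List.countP_map]
    have e : ((fun y => decide (Ad (bb φ) x y)) ∘ fun a => ((0, (4, 0, 0, 0, 0), a) : Code)) =
        fun a => decide (a < x.1 * bb φ) := by
      funext a
      have h4 : x.1 ≠ 0 := by omega
      simp [Ad, h4]
    rw [e, countP_range, h1]
    apply min_eq_left
    unfold ll
    exact Nat.mul_le_mul_right _ (by omega)

theorem cdeg_core {φ : Cnf} {x : Code} (hx : x ∈ core φ) :
    ∃ r < bb φ, cdeg φ x = x.1 * bb φ + r := by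
  classical
  obtain ⟨n, h1, h2, -, -⟩ := mem_core.1 hx
  have h3 : n < (keys φ).length := (List.getElem?_eq_some_iff.1 h2).1
  refine ⟨(core φ).countP (fun y => decide (Ad (bb φ) y x)), ?_, ?_⟩
  · have := List.countP_le_length (p := fun y => decide (Ad (bb φ) y x)) (l := core φ)
    unfold bb at *
    omega
  · unfold cdeg els
    rw [List.countP_append, add_comm]
    congr 1
    unfold pads
    rw [List.countP_map]
    have e : ((fun y => decide (Ad (bb φ) y x)) ∘ fun a => ((0, (4, 0, 0, 0, 0), a) : Code)) =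
        fun a => decide (a < x.1 * bb φ) := by
      funext a
      have h4 : x.1 ≠ 0 := by omega
      simp [Ad, h4]
    rw [e, countP_range, h1]
    apply min_eq_left
    unfold ll
    exact Nat.mul_le_mul_right _ (by omega)

theorem cdeg_pads {φ : Cnf} {x : Code} (hx : x ∈ pads φ) : ll φ ≤ cdeg φ x := by
  classical
  obtain ⟨b, -, rfl⟩ := mem_pads.1 hx
  unfold cdeg els
  rw [List.countP_append]
  refine le_trans ?_ (Nat.le_add_left _ _)
  unfold pads
  rw [List.countP_map]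
  have e : ((fun x => decide (Ad (bb φ) x ((0, (4, 0, 0, 0, 0), b) : Code))) ∘
      fun a => ((0, (4, 0, 0, 0, 0), a) : Code)) = fun a => decide (a < ll φ + a + 1) := by
    funext a
    simp [Ad]
  rw [e]
  have : (List.range (ll φ)).countP (fun a => decide (a < ll φ + a + 1)) =
      (List.range (ll φ)).length := by
    rw [List.countP_eq_length]
    intro a _
    simp
  rw [this, List.length_range]

/-- A solution. -/
def Sol (φ : Cnf) (p : Code → Code) : Prop :=
  ((els φ).map p).Perm (els φ) ∧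
    ∀ x ∈ els φ, ∀ y ∈ els φ, (Ad (bb φ) x (p y) ↔ Ad (bb φ) y (p x))

theorem rdeg_eq {φ : Cnf} {p : Code → Code} (h : Sol φ p) {x : Code} (hx : x ∈ els φ) :
    rdeg φ x = cdeg φ (p x) := by
  classical
  unfold rdeg cdeg
  rw [← h.1.countP_eq, List.countP_map]
  apply List.countP_congr
  intro y hy
  simp only [Function.comp_apply, decide_eq_true_eq]
  exact h.2 x hx y hy

theorem sol_core {φ : Cnf} {p : Code → Code} (h : Sol φ p) {x : Code} (hx : x ∈ core φ) :
    p x ∈ core φ ∧ (p x).1 = x.1 := by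
  have hx' : x ∈ els φ := List.mem_append_left _ hx
  have h1 := rdeg_eq h hx'
  obtain ⟨r, hr, h2⟩ := rdeg_core hx
  have h3 : p x ∈ els φ := h.1.subset (List.mem_map_of_mem hx')
  obtain ⟨n, g1, g2, -, -⟩ := mem_core.1 hx
  have g3 : n < (keys φ).length := (List.getElem?_eq_some_iff.1 g2).1
  rcases List.mem_append.1 h3 with h4 | h4
  · refine ⟨h4, ?_⟩
    obtain ⟨r', hr', h5⟩ := cdeg_core h4
    rw [h1, h5] at h2
    have hb : 0 < bb φ := by omega
    have e1 : ((p x).1 * bb φ + r') / bb φ = (p x).1 := by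
      rw [mul_comm, Nat.mul_add_div hb, Nat.div_eq_of_lt hr']; rfl
    have e2 : (x.1 * bb φ + r) / bb φ = x.1 := by
      rw [mul_comm, Nat.mul_add_div hb, Nat.div_eq_of_lt hr]; rfl
    rw [← e1, ← e2, h2]
  · exfalso
    have h5 := cdeg_pads h4
    rw [← h1, h2] at h5
    have h6 : ll φ = ((keys φ).length + 1) * bb φ := rfl
    have h7 : (x.1 + 1) * bb φ ≤ ((keys φ).length + 1) * bb φ :=
      Nat.mul_le_mul_right _ (by omega)
    have h8 : (x.1 + 1) * bb φ = x.1 * bb φ + bb φ := by ring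
    omega

end Pool.Agent.X249.MSy
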