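import Pool.Agent.X249.Kit

/-!
# Matrix symmetry under row permutations
-/

set_option autoImplicit false

namespace Pool.Agent.X249.MSy

open Pool.Agent.NPC Pool.Agent.NPC.H634R2

/-- The entry number `(i, j)` of a 0/1 matrix given by the list of its rows. -/
def ent (A : List (List Bool)) (i j : ℕ) : Bool := ((A[i]?.getD [])[j]?).getD false

/-- The square matrix with entries 0 and 1 given by the list of its rows. -/
def mat (A : List (List Bool)) : Matrix (Fin A.length) (Fin A.length) ℕ :=
  fun i j => if ent A i j = true then 1 else 0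

/-- Matrix symmetry: `A` is a square matrix with entries 0 and 1 (the list of its rows), and there
is a permutation matrix `P` such that `P * A` is symmetric. -/
def MS (A : List (List Bool)) : Prop :=
  (∀ r ∈ A, r.length = A.length) ∧
    ∃ σ : Equiv.Perm (Fin A.length), (σ.permMatrix ℕ * mat A).IsSymm

/-- Graph isomorphism: two finite simple graphs, given by their adjacency matrices, are
isomorphic. -/
def GI (I : List (List Bool) × List (List Bool)) : Prop :=
  (∀ r ∈ I.1, r.length = I.1.length) ∧ (∀ r ∈ I.2, r.length = I.2.length) ∧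
    (∀ i j, i < I.1.length → j < I.1.length → ent I.1 i j = ent I.1 j i) ∧
    (∀ i j, i < I.2.length → j < I.2.length → ent I.2 i j = ent I.2 j i) ∧
    (∀ i, i < I.1.length → ent I.1 i i = false) ∧ (∀ i, i < I.2.length → ent I.2 i i = false) ∧
    ∃ φ : Fin I.1.length ≃ Fin I.2.length, ∀ i j : Fin I.1.length,
      ent I.1 i j = ent I.2 (φ i) (φ j)

theorem ms_iff (A : List (List Bool)) : MS A ↔ (∀ r ∈ A, r.length = A.length) ∧
    ∃ σ : Equiv.Perm (Fin A.length), ∀ i j : Fin A.length, ent A (σ i) j = ent A (σ j) i := by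
  unfold MS
  refine and_congr_right fun _ => exists_congr fun σ => ?_
  have e : σ.permMatrix ℕ * mat A = (mat A).submatrix σ id := by
    ext i j
    simp [Matrix.mul_apply, Equiv.Perm.permMatrix, PEquiv.toMatrix_apply, Equiv.toPEquiv_apply]
  rw [e]
  have key : ∀ a b : Bool, ((if a = true then 1 else 0 : ℕ) = if b = true then 1 else 0) ↔
      a = b := by
    intro a b; cases a <;> cases b <;> simp
  constructor
  · intro h i j
    have := congrFun (congrFun h j) i
    rw [Matrix.transpose_apply, Matrix.submatrix_apply, Matrix.submatrix_apply] at this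
    exact (key _ _).1 this
  · intro h
    ext i j
    rw [Matrix.transpose_apply, Matrix.submatrix_apply, Matrix.submatrix_apply]
    exact (key _ _).2 (h j i)

section MapIff

variable {α : Type}

theorem ent_map (l : List α) (f : α → α → Bool) (i j : ℕ) (hi : i < l.length) (hj : j < l.length) :
    ent (l.map (fun r => l.map (f r))) i j = f (l.get ⟨i, hi⟩) (l.get ⟨j, hj⟩) := by
  unfold ent
  simp [hi, hj]

theorem get_idxOf [DecidableEq α] {l : List α} (hl : l.Nodup) (i : Fin l.length)
    (h : List.idxOf (l.get i) l < l.length) : (⟨List.idxOf (l.get i) l, h⟩ : Fin l.length) = i := by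
  apply Fin.ext
  exact List.Nodup.idxOf_getElem hl _ _

theorem ms_map_aux [DecidableEq α] (l : List α) (hl : l.Nodup) (f : α → α → Bool) :
    (∃ σ : Equiv.Perm (Fin l.length), ∀ i j : Fin l.length,
      f (l.get (σ i)) (l.get j) = f (l.get (σ j)) (l.get i)) ↔
      ∃ p : α → α, (l.map p).Perm l ∧ ∀ x ∈ l, ∀ y ∈ l, f x (p y) = f y (p x) := by
  constructor
  · rintro ⟨σ, hσ⟩
    have hidx : ∀ x ∈ l, List.idxOf x l < l.length := fun x hx => List.idxOf_lt_length_iff.2 hx
    let p : α → α := fun x => if h : x ∈ l then l.get (σ.symm ⟨List.idxOf x l, hidx x h⟩) else x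
    have hp : ∀ i : Fin l.length, p (l.get i) = l.get (σ.symm i) := by
      intro i
      have h1 : l.get i ∈ l := List.get_mem _ _
      show (if h : l.get i ∈ l then l.get (σ.symm ⟨List.idxOf (l.get i) l, hidx _ h⟩)
        else l.get i) = _
      rw [dif_pos h1, get_idxOf hl]
    refine ⟨p, ?_, ?_⟩
    · have hinj : ∀ x ∈ l, ∀ y ∈ l, p x = p y → x = y := by
        intro x hx y hy hxy
        obtain ⟨i, rfl⟩ := List.get_of_mem hx
        obtain ⟨j, rfl⟩ := List.get_of_mem hy
        rw [hp, hp] at hxy
        have h3 := (List.Nodup.get_inj_iff hl).1 hxy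
        rw [σ.symm.injective h3]
      have hnd : (l.map p).Nodup := (List.nodup_map_iff_inj_on hl).2 hinj
      have hsub : l.map p ⊆ l := by
        intro z hz
        obtain ⟨x, hx, rfl⟩ := List.mem_map.1 hz
        obtain ⟨i, rfl⟩ := List.get_of_mem hx
        rw [hp]
        exact List.get_mem _ _
      exact (hnd.subperm hsub).perm_of_length_le (by rw [List.length_map])
    · intro x hx y hy
      obtain ⟨i, rfl⟩ := List.get_of_mem hx
      obtain ⟨j, rfl⟩ := List.get_of_mem hy
      have h3 := hσ (σ.symm i) (σ.symm j)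
      rw [Equiv.apply_symm_apply, Equiv.apply_symm_apply] at h3
      rw [hp, hp]
      exact h3
  · rintro ⟨p, hperm, hp⟩
    have hmem : ∀ x ∈ l, p x ∈ l := fun x hx => hperm.subset (List.mem_map_of_mem hx)
    have hinj : ∀ x ∈ l, ∀ y ∈ l, p x = p y → x = y := by
      have : (l.map p).Nodup := hperm.nodup_iff.2 hl
      exact (List.nodup_map_iff_inj_on hl).1 this
    let τ : Fin l.length → Fin l.length := fun i =>
      ⟨List.idxOf (p (l.get i)) l, List.idxOf_lt_length_iff.2 (hmem _ (List.get_mem _ _))⟩
    have hτ : ∀ i, l.get (τ i) = p (l.get i) := by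
      intro i
      exact List.getElem_idxOf _
    have hτi : Function.Injective τ := by
      intro i j hij
      have h1 : p (l.get i) = p (l.get j) := by rw [← hτ, ← hτ, hij]
      have h2 := hinj _ (List.get_mem _ _) _ (List.get_mem _ _) h1
      exact (List.Nodup.get_inj_iff hl).1 h2
    let e : Equiv.Perm (Fin l.length) := Equiv.ofBijective τ (Finite.injective_iff_bijective.1 hτi)
    have he : ∀ i, l.get i = p (l.get (e.symm i)) := by
      intro i
      rw [← hτ]
      exact congrArg l.get (e.apply_symm_apply i).symm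
    refine ⟨e.symm, fun i j => ?_⟩
    have h1 := he i
    have h2 := he j
    have h3 := hp _ (List.get_mem l (e.symm i)) _ (List.get_mem l (e.symm j))
    rw [← h1, ← h2] at h3
    exact h3

theorem ms_map_iff [DecidableEq α] (l : List α) (hl : l.Nodup) (f : α → α → Bool) :
    MS (l.map (fun r => l.map (f r))) ↔
      ∃ p : α → α, (l.map p).Perm l ∧ ∀ x ∈ l, ∀ y ∈ l, f x (p y) = f y (p x) := by
  rw [ms_iff]
  have hlen : (l.map (fun r => l.map (f r))).length = l.length := List.length_map _
  rw [and_iff_right (by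
    intro r hr
    obtain ⟨x, _, rfl⟩ := List.mem_map.1 hr
    rw [List.length_map, List.length_map])]
  rw [← ms_map_aux l hl f]
  have e1 : ∀ k : Fin (l.map (fun r => l.map (f r))).length, (k : ℕ) < l.length := by
    intro k; have := k.2; omega
  let c := finCongr hlen
  constructor
  · rintro ⟨σ, hσ⟩
    refine ⟨(c.symm.trans σ).trans c, fun i j => ?_⟩
    have h := hσ (c.symm i) (c.symm j)
    rw [ent_map l f _ _ (e1 _) (e1 _), ent_map l f _ _ (e1 _) (e1 _)] at h
    exact h
  · rintro ⟨σ, hσ⟩
    refine ⟨(c.trans σ).trans c.symm, fun i j => ?_⟩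
    rw [ent_map l f _ _ (e1 _) (e1 _), ent_map l f _ _ (e1 _) (e1 _)]
    exact hσ (c i) (c j)

end MapIff

end Pool.Agent.X249.MSy
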