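import Pool.Agent.X249.MSy.Red

/-!
# Matrix symmetry and graph isomorphism are in NP
-/

set_option autoImplicit false

namespace Pool.Agent.X249.MSy

open Pool.Agent.NPC Pool.Agent.NPC.H634R2

/-- The list codes a permutation of the numbers below `n` with the property `P`. -/
def Cert (P : ℕ → ℕ → ℕ → ℕ → Prop) (n : ℕ) (w : List ℕ) : Prop :=
  w.Nodup ∧ w.length = n ∧ (∀ x ∈ w, x < n) ∧ ∀ p ∈ w.zipIdx, ∀ q ∈ w.zipIdx, P p.1 p.2 q.1 q.2

theorem perm_iff (n : ℕ) (P : ℕ → ℕ → ℕ → ℕ → Prop) :
    (∃ σ : Equiv.Perm (Fin n), ∀ i j : Fin n, P (σ i) i (σ j) j) ↔ ∃ w : List ℕ, Cert P n w := by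
  constructor
  · rintro ⟨σ, h⟩
    refine ⟨(List.finRange n).map (fun i => ((σ i : Fin n) : ℕ)), ?_, ?_, ?_, ?_⟩
    · refine (List.nodup_finRange n).map ?_
      intro i j hij
      exact σ.injective (Fin.ext hij)
    · simp
    · intro x hx
      obtain ⟨i, -, rfl⟩ := List.mem_map.1 hx
      exact (σ i).2
    · have key : ∀ p ∈ ((List.finRange n).map (fun i => ((σ i : Fin n) : ℕ))).zipIdx,
          ∃ i : Fin n, p.1 = (σ i : Fin n) ∧ p.2 = i := by
        intro p hp
        rw [List.mem_zipIdx_iff_getElem?, List.getElem?_map] at hp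
        rw [Option.map_eq_some_iff] at hp
        obtain ⟨i, hi, hi'⟩ := hp
        obtain ⟨h1, h2⟩ := List.getElem?_eq_some_iff.1 hi
        refine ⟨i, hi'.symm, ?_⟩
        rw [← h2]
        simp
      intro p hp q hq
      obtain ⟨i, h1, h2⟩ := key p hp
      obtain ⟨j, h3, h4⟩ := key q hq
      rw [h1, h2, h3, h4]
      exact h i j
  · rintro ⟨w, h1, h2, h3, h4⟩
    let τ : Fin n → Fin n := fun i => ⟨w[i.1]'(by omega), h3 _ (List.getElem_mem _)⟩
    have hτi : Function.Injective τ := by
      intro i j hij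
      have h5 : w[i.1]'(by omega) = w[j.1]'(by omega) := congrArg Fin.val hij
      exact Fin.ext ((List.Nodup.getElem_inj_iff h1).1 h5)
    let e : Equiv.Perm (Fin n) := Equiv.ofBijective τ (Finite.injective_iff_bijective.1 hτi)
    refine ⟨e, fun i j => ?_⟩
    have key : ∀ i : Fin n, (((τ i : Fin n) : ℕ), (i : ℕ)) ∈ w.zipIdx := by
      intro i
      rw [List.mem_zipIdx_iff_getElem?]
      exact List.getElem?_eq_getElem _
    exact h4 _ (key i) _ (key j)

theorem equiv_iff (m n : ℕ) (P : ℕ → ℕ → ℕ → ℕ → Prop) :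
    (∃ φ : Fin m ≃ Fin n, ∀ i j : Fin m, P (φ i) i (φ j) j) ↔
      m = n ∧ ∃ w : List ℕ, Cert P n w := by
  constructor
  · rintro ⟨φ, h⟩
    have e : m = n := by simpa using Fintype.card_congr φ
    subst e
    exact ⟨rfl, (perm_iff m P).1 ⟨φ, h⟩⟩
  · rintro ⟨rfl, h⟩
    exact (perm_iff m P).2 h

theorem Cert.sz_le {P : ℕ → ℕ → ℕ → ℕ → Prop} {n N : ℕ} {w : List ℕ} (h : Cert P n w)
    (hN : n ≤ N) :
    sz w ≤ (Polynomial.X * (Polynomial.C 4 * Polynomial.X + Polynomial.C 2) +
      Polynomial.C 1 : Polynomial ℕ).eval N := by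
  have h1 : sz w ≤ w.length * ((4 * n + 1) + 1) + 1 := by
    apply sz_le_length_mul
    intro x hx
    have := sz_nat_le_linear x
    have := h.2.2.1 x hx
    omega
  simp only [Polynomial.eval_add, Polynomial.eval_mul, Polynomial.eval_C, Polynomial.eval_X]
  refine h1.trans ?_
  rw [h.2.1]
  have : n * (4 * n + 1 + 1) ≤ N * (4 * N + 2) := Nat.mul_le_mul hN (by omega)
  omega

section

variable {α : Type} [TEnc α]

@[fun_prop]
theorem poly_ent {A : α → List (List Bool)} {i j : α → ℕ} (hA : Poly A) (hi : Poly i)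
    (hj : Poly j) : Poly (fun a => ent (A a) (i a) (j a)) := by
  unfold ent
  fun_prop

/-- The matrix is symmetric. -/
def SymL (A : List (List Bool)) : Prop :=
  ∀ i ∈ List.range A.length, ∀ j ∈ List.range A.length, ent A i j = ent A j i

/-- The diagonal is zero. -/
def DiagL (A : List (List Bool)) : Prop :=
  ∀ i ∈ List.range A.length, ent A i i = false

@[fun_prop]
theorem dec_symL {A : α → List (List Bool)} [inst : ∀ a, Decidable (SymL (A a))] (h : Poly A) :
    Poly (fun a => @decide (SymL (A a)) (inst a)) := by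
  have key : ∀ {r : α → List ℕ} [inst : ∀ a, Decidable (∀ i ∈ r a, ∀ j ∈ r a,
      ent (A a) i j = ent (A a) j i)], Poly r → Poly (fun a => @decide (∀ i ∈ r a, ∀ j ∈ r a,
      ent (A a) i j = ent (A a) j i) (inst a)) := by
    intro r _ hr
    fun_prop
  exact @key (fun a => List.range (A a).length) inst (UPoly.range (UPoly.length h))

@[fun_prop]
theorem dec_diagL {A : α → List (List Bool)} [inst : ∀ a, Decidable (DiagL (A a))] (h : Poly A) :
    Poly (fun a => @decide (DiagL (A a)) (inst a)) := by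
  have key : ∀ {r : α → List ℕ} [inst : ∀ a, Decidable (∀ i ∈ r a,
      ent (A a) i i = false)], Poly r → Poly (fun a => @decide (∀ i ∈ r a,
      ent (A a) i i = false) (inst a)) := by
    intro r _ hr
    fun_prop
  exact @key (fun a => List.range (A a).length) inst (UPoly.range (UPoly.length h))

end

/-- The relation of matrix symmetry. -/
def Rel (A : List (List Bool)) (w : List ℕ) : Prop :=
  (∀ r ∈ A, r.length = A.length) ∧ Cert (fun a i b j => ent A a j = ent A b i) A.length w

/-- The relation of graph isomorphism. -/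
def RelG (I : List (List Bool) × List (List Bool)) (w : List ℕ) : Prop :=
  (∀ r ∈ I.1, r.length = I.1.length) ∧ (∀ r ∈ I.2, r.length = I.2.length) ∧
    SymL I.1 ∧ SymL I.2 ∧ DiagL I.1 ∧ DiagL I.2 ∧ I.1.length = I.2.length ∧
    Cert (fun a i b j => ent I.1 i j = ent I.2 a b) I.2.length w

theorem poly_rel : Poly (fun x : List (List Bool) × List ℕ =>
    @decide (Rel x.1 x.2) (Classical.propDecidable _)) := by
  unfold Rel Cert
  fun_prop

theorem poly_relG : Poly (fun x : (List (List Bool) × List (List Bool)) × List ℕ =>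
    @decide (RelG x.1 x.2) (Classical.propDecidable _)) := by
  unfold RelG Cert
  fun_prop

theorem rel_iff (A : List (List Bool)) : MS A ↔ ∃ w,
    sz w ≤ (Polynomial.X * (Polynomial.C 4 * Polynomial.X + Polynomial.C 2) +
      Polynomial.C 1 : Polynomial ℕ).eval (sz A) ∧ Rel A w := by
  rw [ms_iff, perm_iff A.length (fun a i b j => ent A a j = ent A b i)]
  constructor
  · rintro ⟨h, w, hw⟩
    exact ⟨w, hw.sz_le (length_lt_sz A).le, h, hw⟩
  · rintro ⟨w, -, h, hw⟩
    exact ⟨h, w, hw⟩

theorem relG_iff (I : List (List Bool) × List (List Bool)) : GI I ↔ ∃ w,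
    sz w ≤ (Polynomial.X * (Polynomial.C 4 * Polynomial.X + Polynomial.C 2) +
      Polynomial.C 1 : Polynomial ℕ).eval (sz I) ∧ RelG I w := by
  unfold GI
  rw [equiv_iff I.1.length I.2.length (fun a i b j => ent I.1 i j = ent I.2 a b)]
  constructor
  · rintro ⟨h1, h2, h3, h4, h5, h6, h7, w, hw⟩
    refine ⟨w, hw.sz_le ?_, h1, h2, ?_, ?_, ?_, ?_, h7, hw⟩
    · have := length_lt_sz I.2
      obtain ⟨A, B⟩ := I
      simp only [sz_pair] at this ⊢
      omega
    · exact fun i hi j hj => h3 i j (List.mem_range.1 hi) (List.mem_range.1 hj)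
    · exact fun i hi j hj => h4 i j (List.mem_range.1 hi) (List.mem_range.1 hj)
    · exact fun i hi => h5 i (List.mem_range.1 hi)
    · exact fun i hi => h6 i (List.mem_range.1 hi)
  · rintro ⟨w, -, h1, h2, h3, h4, h5, h6, h7, hw⟩
    exact ⟨h1, h2, fun i j hi hj => h3 i (List.mem_range.2 hi) j (List.mem_range.2 hj),
      fun i j hi hj => h4 i (List.mem_range.2 hi) j (List.mem_range.2 hj),
      fun i hi => h5 i (List.mem_range.2 hi), fun i hi => h6 i (List.mem_range.2 hi), h7, w, hw⟩

theorem inNP : InNPP MS := inNPP_rel poly_rel _ rel_iff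

theorem inNPG : InNPP GI := inNPP_rel poly_relG _ relG_iff

/-- Matrix symmetry and graph isomorphism reduce to each other, for the reducibility `R`, iff all
problems in `NP` reduce to graph isomorphism. -/
theorem equivalent_iff (R : Set (List Bool) → Set (List Bool) → Prop)
    (h1 : ∀ L L', Reduces L L' → R L L') (h2 : ∀ L L' L'', R L L' → R L' L'' → R L L'') :
    (R (lang MS) (lang GI) ∧ R (lang GI) (lang MS)) ↔ ∀ L, InNP L → R L (lang GI) := by
  constructor
  · rintro ⟨h, -⟩ L hL
    exact h2 _ _ _ (h1 _ _ (hard.toNPHardP L hL)) h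
  · intro h
    exact ⟨h _ inNP, h1 _ _ (hard.toNPHardP _ inNPG)⟩

end Pool.Agent.X249.MSy
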