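import Pool.Agent.X249.MSy.Complete

/-!
# The reduction is polynomial
-/

set_option autoImplicit false

namespace Pool.Agent.X249.MSy

open Pool.Agent.NPC Pool.Agent.NPC.H634R2

/-- The matrix of a formula. -/
noncomputable def red (φ : Cnf) : List (List Bool) :=
  (els φ).map (fun x => (els φ).map (fun y =>
    @decide (Ad (bb φ) x y) (Classical.propDecidable _)))

theorem red_corr (φ : Cnf) : SAT3 φ ↔ MS (red φ) := by
  classical
  have h : MS (red φ) ↔ ∃ p, Sol φ p := by
    refine (ms_map_iff (els φ) (els_nodup φ)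
      (fun x y => @decide (Ad (bb φ) x y) (Classical.propDecidable _))).trans ?_
    refine exists_congr fun p => and_congr_right fun _ => ?_
    refine forall_congr' fun x => forall_congr' fun _ => forall_congr' fun y =>
      forall_congr' fun _ => ?_
    exact decide_eq_decide
  rw [h]
  exact ⟨sol_of_sat, fun ⟨p, hp⟩ => sat_of_sol hp⟩

section

variable {α : Type} [TEnc α]

@[fun_prop]
theorem poly_vars3 {φ : α → Cnf} (h : Poly φ) : Poly (fun a => vars3 (φ a)) := by
  unfold vars3
  fun_prop

@[fun_prop]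
theorem poly_sg {l : α → Lit ℕ} (h : Poly l) : Poly (fun a => sg (l a)) := by
  unfold sg
  fun_prop

@[fun_prop]
theorem poly_ckeys {l : α → (Lit ℕ × Lit ℕ × Lit ℕ) × ℕ} (h : Poly l) :
    Poly (fun a => ckeys (l a)) := by
  unfold ckeys
  fun_prop

@[fun_prop]
theorem poly_keys {φ : α → Cnf} (h : Poly φ) : Poly (fun a => keys (φ a)) := by
  unfold keys
  fun_prop

@[fun_prop]
theorem poly_itm {K : α → Key} {e : α → ℕ} [inst : ∀ a, Decidable (Itm (K a) (e a))]
    (hK : Poly K) (he : Poly e) : Poly (fun a => @decide (Itm (K a) (e a)) (inst a)) := by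
  unfold Itm
  fun_prop

@[fun_prop]
theorem poly_core {φ : α → Cnf} (h : Poly φ) : Poly (fun a => core (φ a)) := by
  unfold core
  fun_prop

theorem upoly_bb {φ : α → Cnf} (h : Poly φ) : UPoly (fun a => bb (φ a)) := by
  unfold bb
  exact UPoly.add (UPoly.length (poly_core h)) (UPoly.const 1)

theorem upoly_ll {φ : α → Cnf} (h : Poly φ) : UPoly (fun a => ll (φ a)) := by
  unfold ll
  exact UPoly.mul (UPoly.add (UPoly.length (poly_keys h)) (UPoly.const 1)) (upoly_bb h)

@[fun_prop]
theorem poly_bb {φ : α → Cnf} (h : Poly φ) : Poly (fun a => bb (φ a)) := (upoly_bb h).toPoly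

@[fun_prop]
theorem poly_pads {φ : α → Cnf} (h : Poly φ) : Poly (fun a => pads (φ a)) := by
  have key : ∀ {r : α → List ℕ}, Poly r → Poly (fun a =>
      (r a).map (fun b => ((0, (4, 0, 0, 0, 0), b) : Code))) := by
    intro r hr
    fun_prop
  exact key (UPoly.range (upoly_ll h))

@[fun_prop]
theorem poly_els {φ : α → Cnf} (h : Poly φ) : Poly (fun a => els (φ a)) := by
  unfold els
  fun_prop

@[fun_prop]
theorem poly_par {f : α → ℕ} (h : Poly f) : Poly (fun a => par (f a)) := by
  unfold par
  fun_prop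

@[fun_prop]
theorem poly_hi {f : α → ℕ} (h : Poly f) : Poly (fun a => hi (f a)) := by
  unfold hi
  fun_prop

@[fun_prop]
theorem poly_xr {f g : α → ℕ} (h : Poly f) (h' : Poly g) : Poly (fun a => xr (f a) (g a)) := by
  unfold xr
  fun_prop

@[fun_prop]
theorem poly_ev {f g : α → ℕ} (h : Poly f) (h' : Poly g) : Poly (fun a => ev (f a) (g a)) := by
  unfold ev
  fun_prop

@[fun_prop]
theorem poly_od {f g : α → ℕ} (h : Poly f) (h' : Poly g) : Poly (fun a => od (f a) (g a)) := by
  unfold od
  fun_prop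

@[fun_prop]
theorem dec_inc {f g : α → ℕ} [inst : ∀ a, Decidable (Inc (f a) (g a))] (h : Poly f)
    (h' : Poly g) : Poly (fun a => @decide (Inc (f a) (g a)) (inst a)) := by
  unfold Inc
  fun_prop

@[fun_prop]
theorem dec_cadj {f g : α → Key × ℕ} [inst : ∀ a, Decidable (CAdj (f a) (g a))] (h : Poly f)
    (h' : Poly g) : Poly (fun a => @decide (CAdj (f a) (g a)) (inst a)) := by
  unfold CAdj
  fun_prop

@[fun_prop]
theorem dec_ad {B : α → ℕ} {f g : α → Code} [inst : ∀ a, Decidable (Ad (B a) (f a) (g a))]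
    (hB : Poly B) (h : Poly f) (h' : Poly g) :
    Poly (fun a => @decide (Ad (B a) (f a) (g a)) (inst a)) := by
  unfold Ad
  fun_prop

end

theorem poly_red : Poly red := by
  unfold red
  fun_prop

theorem hard : HardI MS := hardI_SAT3.trans poly_red red_corr

end Pool.Agent.X249.MSy
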