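import Pool.Agent.X249.MSy.Core

/-!
# A symmetric arrangement gives a satisfying assignment
-/

set_option autoImplicit false

namespace Pool.Agent.X249.MSy

open Pool.Agent.NPC Pool.Agent.NPC.H634R2

theorem mem_keys {φ : Cnf} {K : Key} : K ∈ keys φ ↔ (∃ v ∈ vars3 φ, K = (0, 0, 0, v, 0)) ∨
    ∃ c j, φ[j]? = some c ∧ K ∈ ckeys (c, j) := by
  unfold keys
  rw [List.mem_dedup, List.mem_append, List.mem_map, List.mem_flatMap]
  constructor
  · rintro (⟨v, h, rfl⟩ | ⟨⟨c, j⟩, h, h'⟩)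
    · exact Or.inl ⟨v, h, rfl⟩
    · exact Or.inr ⟨c, j, List.mem_zipIdx_iff_getElem?.1 h, h'⟩
  · rintro (⟨v, h, rfl⟩ | ⟨c, j, h, h'⟩)
    · exact Or.inl ⟨v, h, rfl⟩
    · exact Or.inr ⟨(c, j), List.mem_zipIdx_iff_getElem?.2 h, h'⟩

/-- the member number `e` of the class `K` -/
noncomputable def cd (φ : Cnf) (K : Key) (e : ℕ) : Code := (List.idxOf K (keys φ) + 1, K, e)

theorem cd_mem {φ : Cnf} {K : Key} {e : ℕ} (hK : K ∈ keys φ) (he : Itm K e) (he4 : e < 4) :
    cd φ K e ∈ core φ := by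
  rw [mem_core]
  exact ⟨List.idxOf K (keys φ), rfl, List.getElem?_idxOf hK, he, he4⟩

theorem core_cd {φ : Cnf} {x : Code} (hx : x ∈ core φ) :
    x.2.1 ∈ keys φ ∧ x = cd φ x.2.1 x.2.2 ∧ Itm x.2.1 x.2.2 ∧ x.2.2 < 4 := by
  obtain ⟨n, h1, h2, h3, h4⟩ := mem_core.1 hx
  obtain ⟨m, K, e⟩ := x
  simp only at h1 h2 h3 h4 ⊢
  obtain ⟨h5, h6⟩ := List.getElem?_eq_some_iff.1 h2
  have h7 : K ∈ keys φ := h6 ▸ List.getElem_mem h5
  refine ⟨h7, ?_, h3, h4⟩
  unfold cd
  have h8 : List.idxOf K (keys φ) = n := by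
    rw [← h6]
    exact List.Nodup.idxOf_getElem (keys_nodup φ) _ _
  rw [h8, h1]

section Sound

variable {φ : Cnf} {p : Code → Code} (h : Sol φ p)

/-- the new number in the class -/
noncomputable def pin (φ : Cnf) (p : Code → Code) (K : Key) (e : ℕ) : ℕ := (p (cd φ K e)).2.2

include h

theorem pin_spec {K : Key} {e : ℕ} (hK : K ∈ keys φ) (he : Itm K e) (he4 : e < 4) :
    p (cd φ K e) = cd φ K (pin φ p K e) ∧ Itm K (pin φ p K e) ∧ pin φ p K e < 4 := by
  obtain ⟨h1, h2⟩ := sol_core h (cd_mem hK he he4)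
  obtain ⟨g1, g2, g3, g4⟩ := core_cd h1
  have e1 : (p (cd φ K e)).2.1 = K := by
    rw [g2] at h2
    unfold cd at h2
    simp only [Nat.add_right_cancel_iff] at h2
    exact (List.idxOf_inj g1).1 h2
  refine ⟨?_, ?_, g4⟩
  · conv_lhs => rw [g2]
    rw [e1]
    rfl
  · rw [e1] at g3
    exact g3

theorem sym {K K' : Key} {e e' : ℕ} (hK : K ∈ keys φ) (he : Itm K e) (he4 : e < 4)
    (hK' : K' ∈ keys φ) (he' : Itm K' e') (he4' : e' < 4) :
    CAdj (K, e) (K', pin φ p K' e') ↔ CAdj (K', e') (K, pin φ p K e) := by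
  have h1 := h.2 _ (List.mem_append_left _ (cd_mem hK he he4)) _
    (List.mem_append_left _ (cd_mem hK' he' he4'))
  rw [(pin_spec h hK he he4).1, (pin_spec h hK' he' he4').1] at h1
  simpa [Ad, cd] using h1

/-- A point class which swaps the diagonals forces the literal. -/
theorem force {j i v s : ℕ} (hQ : (2, j, i, v, s) ∈ keys φ) (hW : (3, j, i, v, s) ∈ keys φ)
    (hX : (0, 0, 0, v, 0) ∈ keys φ) (hs : s < 2)
    (h1 : par (pin φ p (2, j, i, v, s) 0) = 1) : pin φ p (0, 0, 0, v, 0) 0 = s := by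
  have iQ : ∀ e, Itm (2, j, i, v, s) e := fun e => Or.inl (by simp)
  have iW : ∀ e, Itm (3, j, i, v, s) e := fun e => Or.inl (by simp)
  have iX : ∀ e, e < 2 → Itm (0, 0, 0, v, 0) e := fun e he => Or.inr he
  have qq : ∀ q < 4, ∀ q' < 4, (q = pin φ p (2, j, i, v, s) q' ↔
      q' = pin φ p (2, j, i, v, s) q) := by
    intro q hq q' hq'
    have := sym h hQ (iQ q) hq hQ (iQ q') hq'
    simpa [CAdj] using this
  have qw : ∀ q < 4, ∀ e < 4, (Inc q (pin φ p (3, j, i, v, s) e) ↔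
      Inc (pin φ p (2, j, i, v, s) q) e) := by
    intro q hq e he
    have := sym h hQ (iQ q) hq hW (iW e) he
    simpa [CAdj] using this
  have wx : ∀ e < 4, (par e = pin φ p (0, 0, 0, v, 0) 0 ↔
      par (pin φ p (3, j, i, v, s) e) = xr 0 s) := by
    intro e he
    have := sym h hW (iW e) he hX (iX 0 (by omega)) (by omega)
    simpa [CAdj] using this
  have hx2 : pin φ p (0, 0, 0, v, 0) 0 < 2 := by
    have := (pin_spec h hX (iX 0 (by omega)) (by omega)).2.1
    rcases this with h | h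
    · simp at h
    · exact h
  have p4 : ∀ q < 4, pin φ p (2, j, i, v, s) q < 4 := fun q hq => (pin_spec h hQ (iQ q) hq).2.2
  have w4 : ∀ e < 4, pin φ p (3, j, i, v, s) e < 4 := fun e he => (pin_spec h hW (iW e) he).2.2
  have hxr : xr 0 s = s := by
    unfold xr
    interval_cases s <;> simp
  rw [hxr] at wx
  have h0 := p4 0 (by omega)
  -- the fixed edge
  have main : ∃ e < 4, pin φ p (3, j, i, v, s) e = e := by
    have c0 : pin φ p (2, j, i, v, s) 0 = 1 ∨ pin φ p (2, j, i, v, s) 0 = 3 := by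
      unfold par at h1
      by_contra hc
      rw [if_neg hc] at h1
      omega
    rcases c0 with c0 | c0
    · have c1 : pin φ p (2, j, i, v, s) 1 = 0 := ((qq 1 (by omega) 0 (by omega)).1 c0.symm).symm
      have a0 : Inc 0 (pin φ p (3, j, i, v, s) 0) := by
        rw [qw 0 (by omega) 0 (by omega), c0]
        decide
      have a1 : Inc 1 (pin φ p (3, j, i, v, s) 0) := by
        rw [qw 1 (by omega) 0 (by omega), c1]
        decide
      refine ⟨0, by omega, ?_⟩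
      have a2 := w4 0 (by omega)
      unfold Inc at a0 a1
      omega
    · have c1 : pin φ p (2, j, i, v, s) 3 = 0 := ((qq 3 (by omega) 0 (by omega)).1 c0.symm).symm
      have a0 : Inc 0 (pin φ p (3, j, i, v, s) 3) := by
        rw [qw 0 (by omega) 3 (by omega), c0]
        decide
      have a1 : Inc 3 (pin φ p (3, j, i, v, s) 3) := by
        rw [qw 3 (by omega) 3 (by omega), c1]
        decide
      refine ⟨3, by omega, ?_⟩
      have a2 := w4 3 (by omega)
      unfold Inc at a0 a1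
      omega
  obtain ⟨e, he, hee⟩ := main
  have h2 := wx e he
  rw [hee] at h2
  have h3 : par e < 2 := by unfold par; split_ifs <;> omega
  omega

/-- Some point class of a clause swaps the diagonals. -/
theorem some_swap {j : ℕ} {c : Lit ℕ × Lit ℕ × Lit ℕ} (hc : φ[j]? = some c) :
    par (pin φ p (2, j, 0, c.1.2, sg c.1) 0) = 1 ∨ par (pin φ p (2, j, 1, c.2.1.2, sg c.2.1) 0) = 1 ∨
      par (pin φ p (2, j, 2, c.2.2.2, sg c.2.2) 0) = 1 := by
  have kk : ∀ K ∈ ckeys (c, j), K ∈ keys φ := fun K hK => mem_keys.2 (Or.inr ⟨c, j, hc, hK⟩)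
  have hV : ((1, j, 0, 0, 0) : Key) ∈ keys φ := kk _ (by simp [ckeys])
  have iV : ∀ e, Itm (1, j, 0, 0, 0) e := fun e => Or.inl (by simp)
  have key : ∀ i v s, (2, j, i, v, s) ∈ keys φ → (par (pin φ p (2, j, i, v, s) 0) = ev 0 i ↔
      par 0 = od (pin φ p (1, j, 0, 0, 0) 0) i) := by
    intro i v s hQ
    have := sym h hV (iV 0) (by omega) hQ (Or.inl (by simp)) (by omega : 0 < 4)
    simpa [CAdj] using this
  have k0 := key 0 c.1.2 (sg c.1) (kk _ (by simp [ckeys]))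
  have k1 := key 1 c.2.1.2 (sg c.2.1) (kk _ (by simp [ckeys]))
  have k2 := key 2 c.2.2.2 (sg c.2.2) (kk _ (by simp [ckeys]))
  have hp : ∀ e, par e = 0 ∨ par e = 1 := by intro e; unfold par; split_ifs <;> omega
  have e0 : ev 0 0 = 0 := by decide
  have e1 : ev 0 1 = 0 := by decide
  have e2 : ev 0 2 = 0 := by decide
  have e3 : par 0 = 0 := by decide
  rw [e0, e3] at k0
  rw [e1, e3] at k1
  rw [e2, e3] at k2
  rcases hp (pin φ p (2, j, 0, c.1.2, sg c.1) 0) with a0 | a0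
  swap
  · exact Or.inl a0
  rcases hp (pin φ p (2, j, 1, c.2.1.2, sg c.2.1) 0) with a1 | a1
  swap
  · exact Or.inr (Or.inl a1)
  rcases hp (pin φ p (2, j, 2, c.2.2.2, sg c.2.2) 0) with a2 | a2
  swap
  · exact Or.inr (Or.inr a2)
  exfalso
  have b0 := k0.1 a0
  have b1 := k1.1 a1
  have b2 := k2.1 a2
  simp only [od] at b0 b1 b2
  norm_num at b0 b1 b2
  apply b2
  rw [← b0, ← b1]

theorem sat_of_sol : SAT3 φ := by
  refine ⟨fun v => decide (pin φ p (0, 0, 0, v, 0) 0 = 1), ?_⟩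
  intro c hc
  obtain ⟨j, hj, hjc⟩ := List.getElem_of_mem hc
  have hjc' : φ[j]? = some c := by rw [List.getElem?_eq_getElem hj, hjc]
  have kk : ∀ K ∈ ckeys (c, j), K ∈ keys φ := fun K hK => mem_keys.2 (Or.inr ⟨c, j, hjc', hK⟩)
  obtain ⟨m1, m2, m3⟩ := mem_vars3 hc
  have kv : ∀ v ∈ vars3 φ, ((0, 0, 0, v, 0) : Key) ∈ keys φ :=
    fun v hv => mem_keys.2 (Or.inl ⟨v, hv, rfl⟩)
  have hsg : ∀ l : Lit ℕ, sg l < 2 := by intro l; unfold sg; split_ifs <;> omega
  have fin : ∀ l : Lit ℕ, pin φ p (0, 0, 0, l.2, 0) 0 = sg l →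
      decide (pin φ p (0, 0, 0, l.2, 0) 0 = 1) = l.1 := by
    rintro ⟨b, v⟩ hl
    simp only at hl ⊢
    rw [hl]
    cases b <;> simp [sg]
  rcases some_swap h hjc' with h1 | h1 | h1
  · left
    exact fin _ (force h (kk _ (by simp [ckeys])) (kk _ (by simp [ckeys])) (kv _ m1) (hsg _) h1)
  · right; left
    exact fin _ (force h (kk _ (by simp [ckeys])) (kk _ (by simp [ckeys])) (kv _ m2) (hsg _) h1)
  · right; right
    exact fin _ (force h (kk _ (by simp [ckeys])) (kk _ (by simp [ckeys])) (kv _ m3) (hsg _) h1)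

end Sound

end Pool.Agent.X249.MSy
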